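import Pool.Agent.N993.WV.Stm

/-!
# WV/REP (helper189): few families of words have, after the deletion of letters, a given repetition
-/

set_option autoImplicit false

namespace Pool.Agent.N189.WV

open Pool.Agent.N993.WV

lemma filter_get {α : Type} (P : α → Bool) (L : List α) : ∀ (k : ℕ) (a : α),
    (L.filter P)[k]? = some a ↔
      ∃ p : ℕ, L[p]? = some a ∧ P a = true ∧ (L.take p).countP P = k := by
  induction L with
  | nil => intro k a; simp
  | cons b L ih =>
    intro k a
    by_cases hb : P b = true
    · rw [List.filter_cons_of_pos hb]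
      cases k with
      | zero =>
        constructor
        · intro h
          rw [List.getElem?_cons_zero, Option.some.injEq] at h
          subst h
          exact ⟨0, by simp, hb, by simp⟩
        · rintro ⟨p, h1, h2, h3⟩
          cases p with
          | zero => simpa using h1
          | succ p => simp [hb] at h3
      | succ k =>
        rw [List.getElem?_cons_succ, ih]
        constructor
        · rintro ⟨p, h1, h2, h3⟩
          exact ⟨p + 1, by simpa using h1, h2, by simp [hb, h3]⟩
        · rintro ⟨p, h1, h2, h3⟩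
          cases p with
          | zero => simp at h3
          | succ p => exact ⟨p, by simpa using h1, h2, by simpa [hb] using h3⟩
    · rw [List.filter_cons_of_neg hb, ih]
      constructor
      · rintro ⟨p, h1, h2, h3⟩
        exact ⟨p + 1, by simpa using h1, h2, by simp [hb, h3]⟩
      · rintro ⟨p, h1, h2, h3⟩
        cases p with
        | zero =>
          rw [List.getElem?_cons_zero, Option.some.injEq] at h1
          subst h1
          exact absurd h2 hb
        | succ p => exact ⟨p, by simpa using h1, h2, by simpa [hb] using h3⟩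

/-- the rank of a place -/
def rk {l : ℕ} (f : Fin l → Bool) (p : ℕ) : ℕ := ((List.ofFn f).take p).countP id

/-- the pattern -/
def pt {n l : ℕ} (Y : Finset (Fin n)) (u : Fin l → Fin n) : Fin l → Bool :=
  fun q => decide (u q ∈ Y)

lemma get_iff {n l : ℕ} (Y : Finset (Fin n)) (u : Fin l → Fin n) (k : ℕ) (a : Fin n) :
    (del Y (List.ofFn u))[k]? = some a ↔
      ∃ p : Fin l, u p = a ∧ a ∈ Y ∧ rk (pt Y u) p = k := by
  unfold del
  rw [filter_get]
  have hc : ∀ p : ℕ, ((List.ofFn u).take p).countP (fun x => decide (x ∈ Y)) = rk (pt Y u) p := by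
    intro p
    have h1 : List.ofFn (pt Y u) = (List.ofFn u).map (fun x => decide (x ∈ Y)) := by
      rw [List.map_ofFn]
      rfl
    rw [rk, h1, ← List.map_take, List.countP_map]
    rfl
  constructor
  · rintro ⟨p, h1, h2, h3⟩
    rw [List.getElem?_ofFn] at h1
    split_ifs at h1 with h
    rw [Option.some.injEq] at h1
    refine ⟨⟨p, h⟩, h1, by simpa using h2, ?_⟩
    rw [← hc]
    exact h3
  · rintro ⟨p, h1, h2, h3⟩
    refine ⟨p, ?_, by simpa using h2, ?_⟩
    · rw [List.getElem?_ofFn, dif_pos p.2, ← h1]
    · rw [hc, h3]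

section Main

variable {n : ℕ} {I : Type} (ℓ : I → ℕ) (Y : Finset (Fin n)) (μ : ℕ) (t t' : I) (i i' : ℕ)

/-- the event -/
def Ev (w : ∀ t, Fin (ℓ t) → Fin n) : Prop :=
  ∀ k < μ, ∃ a, (del Y (List.ofFn (w t)))[i + k]? = some a ∧
      (del Y (List.ofFn (w t')))[i' + k]? = some a

/-- the word with the letters of `Y` with ranks in the window replaced -/
def rp {l : ℕ} (u : Fin l → Fin n) (z : Fin μ → Y) : Fin l → Fin n := fun p =>
  if h : u p ∈ Y ∧ i' ≤ rk (pt Y u) p ∧ rk (pt Y u) p < i' + μ then
    (z ⟨rk (pt Y u) p - i', by omega⟩ : Fin n) else u p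

lemma pt_rp {l : ℕ} (u : Fin l → Fin n) (z : Fin μ → Y) : pt Y (rp Y μ i' u z) = pt Y u := by
  funext p
  unfold pt
  congr 1
  unfold rp
  split_ifs with h
  · exact propext ⟨fun _ => h.1, fun _ => (z _).2⟩
  · rfl

lemma main1 [Fintype I] (ht : t ≠ t' ∨ i < i') :
    Nat.card {w : ∀ t, Fin (ℓ t) → Fin n // Ev ℓ Y μ t t' i i' w} * Y.card ^ μ ≤
      Nat.card (∀ t, Fin (ℓ t) → Fin n) := by
  classical
  let F : {w : ∀ t, Fin (ℓ t) → Fin n // Ev ℓ Y μ t t' i i' w} × (Fin μ → Y) →
      ∀ t, Fin (ℓ t) → Fin n := fun wz =>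
    Function.update wz.1.1 t' (rp Y μ i' (wz.1.1 t') wz.2)
  have hF : Function.Injective F := by
    rintro ⟨⟨w1, h1⟩, z1⟩ ⟨⟨w2, h2⟩, z2⟩ h
    have hne : ∀ s, s ≠ t' → w1 s = w2 s := by
      intro s hs
      have := congrFun h s
      simpa only [F, Function.update_of_ne hs] using this
    have heq : rp Y μ i' (w1 t') z1 = rp Y μ i' (w2 t') z2 := by
      have := congrFun h t'
      simpa only [F, Function.update_self] using this
    have hpt : pt Y (w1 t') = pt Y (w2 t') := by
      rw [← pt_rp Y μ i' (w1 t') z1, heq, pt_rp]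
    have hY : ∀ p, w1 t' p ∈ Y ↔ w2 t' p ∈ Y := by
      intro p
      have := congrFun hpt p
      simpa [pt] using this
    -- outside the window
    have hout : ∀ p, ¬ (w1 t' p ∈ Y ∧ i' ≤ rk (pt Y (w1 t')) p ∧ rk (pt Y (w1 t')) p < i' + μ) →
        w1 t' p = w2 t' p := by
      intro p hp
      have h3 := congrFun heq p
      unfold rp at h3
      rw [dif_neg hp, dif_neg (by rw [← hY, ← hpt]; exact hp)] at h3
      exact h3
    have hget : ∀ r, (∀ p : Fin (ℓ t'), w1 t' p ∈ Y → rk (pt Y (w1 t')) p = r →
        w1 t' p = w2 t' p) → ∀ a, (del Y (List.ofFn (w1 t')))[r]? = some a →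
        (del Y (List.ofFn (w2 t')))[r]? = some a := by
      intro r hr a ha
      rw [get_iff] at ha ⊢
      obtain ⟨p, hp1, hp2, hp3⟩ := ha
      refine ⟨p, ?_, hp2, ?_⟩
      · rw [← hr p (by rw [hp1]; exact hp2) hp3, hp1]
      · rw [← hpt]; exact hp3
    -- the letters in the window
    have hwin : ∀ k < μ, ∀ a, (del Y (List.ofFn (w1 t')))[i' + k]? = some a →
        (del Y (List.ofFn (w2 t')))[i' + k]? = some a := by
      intro k
      induction k using Nat.strong_induction_on with
      | _ k ih =>
        intro hk a ha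
        obtain ⟨b1, hb1, hb1'⟩ := h1 k hk
        obtain ⟨b2, hb2, hb2'⟩ := h2 k hk
        rw [ha, Option.some.injEq] at hb1'
        subst hb1'
        have h5 : (del Y (List.ofFn (w2 t)))[i + k]? = some a := by
          by_cases hs : t = t'
          · subst hs
            have hii : i < i' := by
              rcases ht with h | h
              · exact absurd rfl h
              · exact h
            by_cases hk2 : i + k < i'
            · refine hget (i + k) ?_ a hb1
              intro p hp1 hp2
              apply hout p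
              rintro ⟨-, h6, -⟩
              omega
            · have e : i + k = i' + (i + k - i') := by omega
              rw [e] at hb1 ⊢
              exact ih (i + k - i') (by omega) (by omega) a hb1
          · rw [← hne t hs]
            exact hb1
        rw [h5, Option.some.injEq] at hb2
        rw [hb2', hb2]
    have hw : w1 t' = w2 t' := by
      funext p
      by_cases hp : w1 t' p ∈ Y ∧ i' ≤ rk (pt Y (w1 t')) p ∧ rk (pt Y (w1 t')) p < i' + μ
      · obtain ⟨hp1, hp2, hp3⟩ := hp
        have e1 : (del Y (List.ofFn (w1 t')))[rk (pt Y (w1 t')) p]? = some (w1 t' p) := by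
          rw [get_iff]
          exact ⟨p, rfl, hp1, rfl⟩
        have e2 : (del Y (List.ofFn (w2 t')))[rk (pt Y (w1 t')) p]? = some (w2 t' p) := by
          rw [get_iff]
          exact ⟨p, rfl, (hY p).1 hp1, by rw [← hpt]⟩
        obtain ⟨k, hk⟩ := Nat.exists_eq_add_of_le hp2
        rw [hk] at e1 e2
        have e3 := hwin k (by omega) _ e1
        rw [e2, Option.some.injEq] at e3
        exact e3.symm
      · exact hout p hp
    have hw12 : w1 = w2 := by
      funext s
      by_cases hs : s = t'
      · subst hs
        exact hw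
      · exact hne s hs
    subst hw12
    have hz : z1 = z2 := by
      funext k
      obtain ⟨b, -, hb⟩ := h1 k k.2
      rw [get_iff] at hb
      obtain ⟨p, hp1, hp2, hp3⟩ := hb
      have h3 := congrFun heq p
      have hc : w1 t' p ∈ Y ∧ i' ≤ rk (pt Y (w1 t')) p ∧ rk (pt Y (w1 t')) p < i' + μ :=
        ⟨by rw [hp1]; exact hp2, by omega, by have := k.2; omega⟩
      unfold rp at h3
      rw [dif_pos hc, dif_pos hc] at h3
      have e : (⟨rk (pt Y (w1 t')) p - i', by omega⟩ : Fin μ) = k := by
        apply Fin.ext
        show rk (pt Y (w1 t')) p - i' = k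
        omega
      rw [e] at h3
      exact Subtype.ext h3
    subst hz
    rfl
  have h1 := Nat.card_le_card_of_injective F hF
  rw [Nat.card_prod, Nat.card_fun] at h1
  simpa using h1

end Main

theorem t_rep : S_REP := by
  intro n I _ ℓ Y μ t t' i i' hne
  by_cases h : t ≠ t' ∨ i < i'
  · exact main1 ℓ Y μ t t' i i' h
  · push Not at h
    have h2 : i' < i := by
      rcases lt_or_eq_of_le h.2 with h3 | h3
      · exact h3
      · exact absurd (Prod.ext h.1 h3.symm) hne
    have h3 := main1 ℓ Y μ t' t i' i (Or.inr h2)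
    have e : {w : ∀ t, Fin (ℓ t) → Fin n // ∀ k < μ, ∃ a,
        (del Y (List.ofFn (w t)))[i + k]? = some a ∧
        (del Y (List.ofFn (w t')))[i' + k]? = some a} =
        {w : ∀ t, Fin (ℓ t) → Fin n // Ev ℓ Y μ t' t i' i w} := by
      congr 1
      funext w
      unfold Ev
      apply propext
      constructor
      · intro h k hk
        obtain ⟨a, ha, hb⟩ := h k hk
        exact ⟨a, hb, ha⟩
      · intro h k hk
        obtain ⟨a, ha, hb⟩ := h k hk
        exact ⟨a, hb, ha⟩
    rw [e]
    exact h3

end Pool.Agent.N189.WV
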